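import Pool.Agent.H24.KTH.Geo
import Pool.Agent.H60.LQ.Stmts

/-!
# KTX: the configuration of three lines with explicit coefficients (definitions and statements)

Step of the row STP of the board `lq`. Errors are `C (1 + G) + ε J`, `G` the energies of the times; the
deficit `e` of the times has explicit coefficients everywhere.
-/

set_option autoImplicit false

namespace Pool.KTX

open Finset Real
open Pool.Agent.H49.Ent Pool.Agent.H32.Dense Pool.Agent.H24.KTH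

/-- Data of a configuration of three lines. The lines 0, 1 cross at the time `t`, the lines 0, 2 at
the time `s`; `t₁` is a third time of the line 0, `r` a time of the line 1, `tr, ta` are times of
the line 2. -/
structure KC (d J : ℕ) : Type 1 where
  /-- sample space -/
  Ω : Type
  /-- finite -/
  fin : Fintype Ω
  /-- side information: type -/
  ζ : Type
  /-- law -/
  q : Ω → ℝ
  /-- side information -/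
  Z : Ω → ζ
  v₀ : Ω → Fin d → ℤ
  v₁ : Ω → Fin d → ℤ
  v₂ : Ω → Fin d → ℤ
  u₀ : Ω → Fin d → ℝ
  u₁ : Ω → Fin d → ℝ
  u₂ : Ω → Fin d → ℝ
  t : Ω → ℤ
  s : Ω → ℤ
  t₁ : Ω → ℤ
  r : Ω → ℤ
  tr : Ω → ℤ
  ta : Ω → ℤ

attribute [instance] KC.fin

variable {d J : ℕ}

/-- `log M`, `M = 2 ^ J`. -/
noncomputable def lg (J : ℕ) : ℝ := J * Real.log 2

namespace KC

/-- The rounded position of the line `(u, v)` at the time `x`, with the time. -/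
noncomputable def pt (_K : KC d J) (u : Fin d → ℝ) (v : Fin d → ℤ) (x : ℤ) : ℤ × (Fin d → ℤ) :=
  (x, rd (pos (2 ^ J) u v x))

noncomputable def P (K : KC d J) (w : K.Ω) : ℤ × (Fin d → ℤ) := K.pt (K.u₀ w) (K.v₀ w) (K.t w)
noncomputable def C (K : KC d J) (w : K.Ω) : ℤ × (Fin d → ℤ) := K.pt (K.u₀ w) (K.v₀ w) (K.s w)
noncomputable def A (K : KC d J) (w : K.Ω) : ℤ × (Fin d → ℤ) := K.pt (K.u₀ w) (K.v₀ w) (K.t₁ w)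
noncomputable def B (K : KC d J) (w : K.Ω) : ℤ × (Fin d → ℤ) := K.pt (K.u₁ w) (K.v₁ w) (K.r w)
noncomputable def C₂ (K : KC d J) (w : K.Ω) : ℤ × (Fin d → ℤ) := K.pt (K.u₂ w) (K.v₂ w) (K.tr w)
noncomputable def A₂ (K : KC d J) (w : K.Ω) : ℤ × (Fin d → ℤ) := K.pt (K.u₂ w) (K.v₂ w) (K.ta w)

/-- The displacement `c`. -/
noncomputable def c (K : KC d J) (w : K.Ω) : ℤ := ct (K.t w) (K.s w) (K.t₁ w) (K.r w)

/-- The point `O`, without its time. -/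
noncomputable def X (K : KC d J) (w : K.Ω) : Fin d → ℤ :=
  xf (2 ^ J) (K.u₀ w) (K.v₀ w) (K.s w) (K.c w) (K.v₁ w)

/-- The point `O` of the chord `A B`. -/
noncomputable def O (K : KC d J) (w : K.Ω) : ℤ × (Fin d → ℤ) := (K.s w + K.c w, K.X w)

/-- The second displacement. -/
noncomputable def c₂ (K : KC d J) (w : K.Ω) : ℤ :=
  ⌊kap (K.s w) (K.tr w) (K.ta w) * (K.c w : ℝ)⌋

/-- The point `Y` of the chord `A₂ O`. -/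
noncomputable def Y (K : KC d J) (w : K.Ω) : ℤ × (Fin d → ℤ) :=
  (K.tr w + K.c₂ w, xf (2 ^ J) (K.u₂ w) (K.v₂ w) (K.tr w) (K.c₂ w) (K.v₁ w))

/-- The three directions. -/
def V (K : KC d J) (w : K.Ω) : (Fin d → ℤ) × (Fin d → ℤ) × (Fin d → ℤ) := (K.v₀ w, K.v₁ w, K.v₂ w)

/-- `E log (M / |v₁ - v₀|)` -/
noncomputable def y01 (K : KC d J) : ℝ := Ex K.q (fun w => lvv (2 ^ J) (K.v₁ w) (K.v₀ w))

/-- `E log (M / |v₁ - v₂|)` -/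
noncomputable def y12 (K : KC d J) : ℝ := Ex K.q (fun w => lvv (2 ^ J) (K.v₁ w) (K.v₂ w))

/-- `x^ = H(O)` -/
noncomputable def xh (K : KC d J) : ℝ := CH K.q K.O K.Z
/-- `y^ = H(Y)` -/
noncomputable def yh (K : KC d J) : ℝ := CH K.q K.Y K.Z
/-- `m^ = H(A, B)` -/
noncomputable def mh (K : KC d J) : ℝ := CH K.q (fun w => (K.A w, K.B w)) K.Z
/-- `eta1 = H(v₀ | v₁, O)` -/
noncomputable def et1 (K : KC d J) : ℝ := CH K.q K.v₀ (fun w => (K.v₁ w, K.O w, K.Z w))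
/-- `eta = H(v₁ | v₂, Y)` -/
noncomputable def et (K : KC d J) : ℝ := CH K.q K.v₁ (fun w => (K.v₂ w, K.Y w, K.Z w))
/-- `q = H(s | v₁, v₂)` -/
noncomputable def qh (K : KC d J) : ℝ := CH K.q K.s (fun w => (K.v₁ w, K.v₂ w, K.Z w))
/-- `rho = H(t | v₁, C₂)` -/
noncomputable def rh (K : KC d J) : ℝ := CH K.q K.t (fun w => (K.v₁ w, K.C₂ w, K.Z w))
/-- `xi = H(O | A₂, Y)` -/
noncomputable def xi (K : KC d J) : ℝ := CH K.q K.O (fun w => (K.A₂ w, K.Y w, K.Z w))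

/-- The family `F_L`: line 1, given `O`, time `r`. -/
noncomputable def LL (K : KC d J) : ℝ := CH K.q K.v₁ (fun w => (K.O w, K.Z w))
noncomputable def SL (K : KC d J) : ℝ :=
  Sf (2 ^ J) K.q (fun w => (K.O w, K.Z w)) K.v₁ K.u₁ K.r

/-- The family `F_I`: line 2, given `Y`, time `ta`. -/
noncomputable def LI (K : KC d J) : ℝ := CH K.q K.v₂ (fun w => (K.Y w, K.Z w))
noncomputable def SI (K : KC d J) : ℝ :=
  Sf (2 ^ J) K.q (fun w => (K.Y w, K.Z w)) K.v₂ K.u₂ K.ta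

/-! ### Exact quantities -/

/-- Deficit of `c`. -/
noncomputable def ec (K : KC d J) : ℝ :=
  lg J - CH K.q K.c (fun w => (K.V w, K.t w, K.s w, K.Z w))
/-- `g = 2 log M - y01 - H(O | v₀, v₁)` -/
noncomputable def g (K : KC d J) : ℝ :=
  2 * lg J - K.y01 - CH K.q K.O (fun w => ((K.v₀ w, K.v₁ w), K.Z w))
/-- `g2 = 2 log M - y12 - H(Y | v₁, v₂)` -/
noncomputable def g2 (K : KC d J) : ℝ :=
  2 * lg J - K.y12 - CH K.q K.Y (fun w => ((K.v₁ w, K.v₂ w), K.Z w))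
/-- Deficit of the time `r` given `v₁, O`. -/
noncomputable def KL (K : KC d J) : ℝ :=
  Kf (2 ^ J) K.q (bv (fun w => (K.O w, K.Z w)) K.v₁) K.r
/-- Deficit of the time `ta` given `v₂, Y`. -/
noncomputable def KI (K : KC d J) : ℝ :=
  Kf (2 ^ J) K.q (bv (fun w => (K.Y w, K.Z w)) K.v₂) K.ta
/-- `H(B | O)` -/
noncomputable def sL (K : KC d J) : ℝ := CH K.q K.B (fun w => (K.O w, K.Z w))
/-- `H(A₂ | Y)` -/
noncomputable def sI (K : KC d J) : ℝ := CH K.q K.A₂ (fun w => (K.Y w, K.Z w))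

/-- The configuration of a family with `H(v | Z) = L`, `H(τ, position | Z) = sb` and deficit `e` of
the times: `e` is the exact deficit of each of the six times, given the line alone and also given
all the other variables. -/
structure Ok (K : KC d J) (L sb e : ℝ) : Prop where
  f0t : IsFam (2 ^ J) K.q K.Z K.v₀ K.u₀ K.t
  f0s : IsFam (2 ^ J) K.q K.Z K.v₀ K.u₀ K.s
  f0a : IsFam (2 ^ J) K.q K.Z K.v₀ K.u₀ K.t₁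
  f1t : IsFam (2 ^ J) K.q K.Z K.v₁ K.u₁ K.t
  f1r : IsFam (2 ^ J) K.q K.Z K.v₁ K.u₁ K.r
  f2s : IsFam (2 ^ J) K.q K.Z K.v₂ K.u₂ K.s
  f2r : IsFam (2 ^ J) K.q K.Z K.v₂ K.u₂ K.tr
  f2a : IsFam (2 ^ J) K.q K.Z K.v₂ K.u₂ K.ta
  cross01 : ∀ w, 0 < K.q w →
    rd (pos (2 ^ J) (K.u₀ w) (K.v₀ w) (K.t w)) = rd (pos (2 ^ J) (K.u₁ w) (K.v₁ w) (K.t w))
  cross02 : ∀ w, 0 < K.q w →
    rd (pos (2 ^ J) (K.u₀ w) (K.v₀ w) (K.s w)) = rd (pos (2 ^ J) (K.u₂ w) (K.v₂ w) (K.s w))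
  he : 0 ≤ e
  us : lg J - e ≤ CH K.q K.s (fun w => ((K.v₀ w, K.v₁ w), K.t w, K.t₁ w, K.r w, K.Z w))
  ut : lg J - e ≤ CH K.q K.t₁ (fun w => (K.V w, K.t w, K.s w, K.r w, K.tr w, K.ta w, K.Z w))
  ur : lg J - e ≤ CH K.q K.r (fun w => (K.V w, K.t w, K.s w, K.t₁ w, K.tr w, K.ta w, K.Z w))
  utr : lg J - e ≤ CH K.q K.tr (fun w => (K.V w, K.t w, K.s w, K.t₁ w, K.r w, K.ta w, K.Z w))
  uta : lg J - e ≤ CH K.q K.ta (fun w => (K.V w, K.t w, K.s w, K.t₁ w, K.r w, K.tr w, K.Z w))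
  us' : CH K.q K.s (fun w => (K.v₀ w, K.Z w)) ≤ lg J - e
  ut' : CH K.q K.t₁ (fun w => (K.v₀ w, K.Z w)) ≤ lg J - e
  ur' : CH K.q K.r (fun w => (K.v₁ w, K.Z w)) ≤ lg J - e
  utr' : CH K.q K.tr (fun w => (K.v₂ w, K.Z w)) ≤ lg J - e
  uta' : CH K.q K.ta (fun w => (K.v₂ w, K.Z w)) ≤ lg J - e
  L0 : CH K.q K.v₀ K.Z = L
  L1 : CH K.q K.v₁ K.Z = L
  L2 : CH K.q K.v₂ K.Z = L
  c01 : 2 * L + 2 * lg J - 2 * e - sb ≤ CH K.q (fun w => ((K.v₀ w, K.v₁ w), K.t w)) K.Z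
  c012 : 3 * L + 4 * lg J - 4 * e - 2 * sb ≤ CH K.q (fun w => (K.V w, K.t w, K.s w)) K.Z
  c1 : L + lg J - e - sb ≤ CH K.q K.v₁ (fun w => (K.P w, K.C₂ w, K.Z w))
  sP : CH K.q K.P K.Z ≤ sb
  sC : CH K.q K.C K.Z ≤ sb
  sA : CH K.q K.A K.Z ≤ sb
  sB : CH K.q K.B K.Z ≤ sb
  sC2 : CH K.q K.C₂ K.Z ≤ sb
  sA2 : CH K.q K.A₂ K.Z ≤ sb
  sym : CH K.q (fun w => (K.P w, K.C₂ w)) K.Z = K.mh

/-- `G` bounds the energies of the pairs of times. -/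
structure En (K : KC d J) (G : ℝ) : Prop where
  hG : 0 ≤ G
  ets : Ex K.q (fun w => ell (2 ^ J) (K.t w) (K.s w)) ≤ G
  eat : Ex K.q (fun w => ell (2 ^ J) (K.t₁ w) (K.t w)) ≤ G
  eas : Ex K.q (fun w => ell (2 ^ J) (K.t₁ w) (K.s w)) ≤ G
  ert : Ex K.q (fun w => ell (2 ^ J) (K.r w) (K.t w)) ≤ G
  era : Ex K.q (fun w => ell (2 ^ J) (K.r w) (K.t₁ w)) ≤ G
  est : Ex K.q (fun w => ell (2 ^ J) (K.s w) (K.tr w)) ≤ G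
  eis : Ex K.q (fun w => ell (2 ^ J) (K.ta w) (K.s w)) ≤ G
  eit : Ex K.q (fun w => ell (2 ^ J) (K.ta w) (K.tr w)) ≤ G
  eio : Ex K.q (fun w => Real.log (1 + (2 : ℝ) ^ J / max |(K.s w : ℝ) + K.c w - K.ta w| 1)) ≤ G

end KC

/-- The configuration of a family (`pC` of `H32/Dense/Conf`). -/
noncomputable def KC.of (J : ℕ) {d : ℕ} {Ω : Type} [Fintype Ω] {ζ : Type} (p : Ω → ℝ) (Z : Ω → ζ)
    (v : Ω → Fin d → ℤ) (u : Ω → Fin d → ℝ) (τ : Ω → ℤ) : KC d J where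
  Ω := (((Ω × Ω) × Ω) × (Ω × Ω)) × ((Ω × Ω) × Ω)
  fin := inferInstance
  ζ := ζ
  q := pC (2 ^ J) p Z v u τ
  Z := fun w => Z w.1.1.1.1
  v₀ := fun w => v w.1.1.1.1
  v₁ := fun w => v w.1.2.1
  v₂ := fun w => v w.2.1.1
  u₀ := fun w => u w.1.1.1.1
  u₁ := fun w => u w.1.2.1
  u₂ := fun w => u w.2.1.1
  t := fun w => τ w.1.1.1.1
  s := fun w => τ w.1.1.1.2
  t₁ := fun w => τ w.1.1.2
  r := fun w => τ w.1.2.2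
  tr := fun w => τ w.2.1.2
  ta := fun w => τ w.2.2

/-! ### Format -/

/-- `F ≤ C (1 + G) + ε J` for all configurations. `F` may contain `e`. -/
def Sm (d : ℕ) (F : ∀ (J : ℕ), KC d J → ℝ → ℝ → ℝ → ℝ) : Prop :=
  ∀ ε : ℝ, 0 < ε → ∃ C : ℝ, ∀ (J : ℕ) (K : KC d J) (L sb e G : ℝ), K.Ok L sb e → K.En G →
    F J K L sb e ≤ C * (1 + G) + ε * J

theorem Sm.add {d : ℕ} {F F' : ∀ (J : ℕ), KC d J → ℝ → ℝ → ℝ → ℝ} (hF : Sm d F) (hF' : Sm d F') :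
    Sm d (fun J K L sb e => F J K L sb e + F' J K L sb e) := by
  intro ε hε
  obtain ⟨C, hC⟩ := hF (ε / 2) (by linarith)
  obtain ⟨D, hD⟩ := hF' (ε / 2) (by linarith)
  refine ⟨C + D, fun J K L sb e G h hG => ?_⟩
  have h1 := hC J K L sb e G h hG
  have h2 := hD J K L sb e G h hG
  linarith

theorem Sm.mono {d : ℕ} {F F' : ∀ (J : ℕ), KC d J → ℝ → ℝ → ℝ → ℝ} (hF : Sm d F)
    (h : ∀ (J : ℕ) (K : KC d J) (L sb e G : ℝ), K.Ok L sb e → K.En G →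
      F' J K L sb e ≤ F J K L sb e) : Sm d F' := by
  intro ε hε
  obtain ⟨C, hC⟩ := hF ε hε
  exact ⟨C, fun J K L sb e G hK hG => (h J K L sb e G hK hG).trans (hC J K L sb e G hK hG)⟩

theorem Sm.smul {d : ℕ} {F : ∀ (J : ℕ), KC d J → ℝ → ℝ → ℝ → ℝ} (hF : Sm d F) {a : ℝ}
    (ha : 0 ≤ a) : Sm d (fun J K L sb e => a * F J K L sb e) := by
  intro ε hε
  obtain ⟨C, hC⟩ := hF (ε / (a + 1)) (by positivity)
  refine ⟨a * C, fun J K L sb e G h hG => ?_⟩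
  have hJ0 : (0 : ℝ) ≤ J := Nat.cast_nonneg J
  have h1 := mul_le_mul_of_nonneg_left (hC J K L sb e G h hG) ha
  have h3 : a * (ε / (a + 1) * J) ≤ ε * J := by
    have : a / (a + 1) ≤ 1 := by rw [div_le_one (by linarith)]; linarith
    calc a * (ε / (a + 1) * J) = (a / (a + 1)) * (ε * J) := by ring
      _ ≤ 1 * (ε * J) := mul_le_mul_of_nonneg_right this (by positivity)
      _ = ε * J := one_mul _
  linarith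

/-- A bound without `ε J`. -/
theorem Sm.of_lin {d : ℕ} {F : ∀ (J : ℕ), KC d J → ℝ → ℝ → ℝ → ℝ}
    (h : ∃ C : ℝ, ∀ (J : ℕ) (K : KC d J) (L sb e G : ℝ), K.Ok L sb e → K.En G →
      F J K L sb e ≤ C * (1 + G)) : Sm d F := by
  obtain ⟨C, hC⟩ := h
  intro ε hε
  refine ⟨C, fun J K L sb e G hK hG => (hC J K L sb e G hK hG).trans ?_⟩
  have hJ0 : (0 : ℝ) ≤ J := Nat.cast_nonneg J
  have : 0 ≤ ε * J := by positivity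
  linarith

/-! ### The rows -/

/-- (XMR) The configuration of a family has all the properties, `e = Kf` exactly. Conditional
independence of the copies: `H32/Dense/{Conf, Marg}` (`CH_tri_3`, `CH_dbl_2`, `CH_glue_snd`,
`tri_cycle`, `tri_swap12`, `pC_02` for `sym`), style in `H36/Dense/Q2`, `H70/Dense/Q3`; the row CFG
of `H12/KTH` is similar. -/
def XMRStmt : Prop :=
  ∀ (d J : ℕ) (Ω : Type) [Fintype Ω] (ζ : Type) (p : Ω → ℝ) (Z : Ω → ζ) (v : Ω → Fin d → ℤ)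
    (u : Ω → Fin d → ℝ) (τ : Ω → ℤ), IsFam (2 ^ J) p Z v u τ →
    (KC.of J p Z v u τ).Ok (CH p v Z)
      (CH p (fun ω => (τ ω, rd (pos (2 ^ J) (u ω) (v ω) (τ ω)))) Z) (Kf (2 ^ J) p (bv Z v) τ) ∧
    (KC.of J p Z v u τ).y01 = Yf (2 ^ J) p Z v u τ

/-- (XEN) Energies of the configuration of a family. Pairs of times of one line: the pair of copies
has the law `dbl p (bv Z v)` (`t`, `s` may be read on either line), so the energy is `Gf`.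
`(r, t₁)`: (CEN) with `W := (V, t, s, Z)`: two copies of `r` given `W` have the energy `Gf` (the law of
`r` given `W` is that of `τ` given the line 1). `eio`: (CEN) with `W := (V, t, s, t₁, Z)`,
`X := s + c = ⌊κ r + x⌋ ` up to 1 (`κ = kap t s t₁`, `x = s - κ t` functions of `W`) and `Y := ta`:
`|X - X'| ≥ |κ| |r - r'| - 2`, so the energy of `X` given `W` is at most `Gf + Ex log (1 + |κ|⁻¹) + C`,
and `Ex log (1 + |κ|⁻¹) ≤ C (1 + Gf)` by `kap_swap`, `kap_le` (`Df_le`). Finally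
`log (1 + M / max |x| 1) ≤ eg + log 2` up to `C`. -/
def XENStmt : Prop := Pool.LQ.CENStmt →
  ∃ C : ℝ, ∀ (d J : ℕ) (Ω : Type) [Fintype Ω] (ζ : Type) (p : Ω → ℝ) (Z : Ω → ζ)
    (v : Ω → Fin d → ℤ) (u : Ω → Fin d → ℝ) (τ : Ω → ℤ), IsFam (2 ^ J) p Z v u τ →
    (KC.of J p Z v u τ).En (C * (1 + Gf (2 ^ J) p (bv Z v) τ))

/-- (XSZ) Sizes, from the energies (`H32/Dense/Times`: `log_ct`, `log_ct_le`, `log_floor_mul`,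
`log_floor_mul_le`, `kap_le`, `kap_swap`). -/
def XSZStmt : Prop :=
  ∃ C : ℝ, ∀ (d J : ℕ) (K : KC d J) (L sb e G : ℝ), K.Ok L sb e → K.En G →
    Ex K.q (fun w => sz (2 ^ J) ((K.t₁ w - K.t w : ℤ) : ℝ)) ≤ C * (1 + G) ∧
    Ex K.q (fun w => sz (2 ^ J) ((K.s w - K.t w : ℤ) : ℝ)) ≤ C * (1 + G) ∧
    Ex K.q (fun w => sz (2 ^ J) ((K.r w - K.t w : ℤ) : ℝ)) ≤ C * (1 + G) ∧
    Ex K.q (fun w => sz (2 ^ J) ((K.r w : ℝ) - K.t₁ w)) ≤ C * (1 + G) ∧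
    Ex K.q (fun w => sz (2 ^ J) (K.c w)) ≤ C * (1 + G) ∧
    Ex K.q (fun w => sz (2 ^ J) (K.c₂ w)) ≤ C * (1 + G) ∧
    Ex K.q (fun w => sz (2 ^ J) ((K.s w : ℝ) + K.c w - K.ta w)) ≤ C * (1 + G) ∧
    Ex K.q (fun w => Real.log (1 + |kap (K.t w) (K.s w) (K.t₁ w)|)) ≤ C * (1 + G) ∧
    Ex K.q (fun w => Real.log (1 + |kap (K.t w) (K.s w) (K.t₁ w)|⁻¹)) ≤ C * (1 + G) ∧
    Ex K.q (fun w => Real.log (1 + |kap (K.s w) (K.tr w) (K.ta w)|)) ≤ C * (1 + G) ∧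
    Ex K.q (fun w => Real.log (1 + |kap (K.s w) (K.tr w) (K.ta w)|⁻¹)) ≤ C * (1 + G)

/-- (XTU) Times and displacements, with exact deficits. From (TIA) and (XSZ):
(1) `CH c (r, ..) ≥ CH t₁ (r, ..) - CH t₁ (c, r - t, t, s)` and `ut`; (2) upper bounds: `CH_le_tail`;
(3) `ec ≤ e`, `0 ≤ ec`; (4) `CH r (c, ..) = CH r + CH c (r, ..) - CH c`;
(5) `CH (s + c) ≥ CH s (t₁, r, t, ..) - CH s (s + c, t, t₁, r - t)`, `us`;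
(6) `c` is independent of `tr, ta`: `I(c; tr, ta | V,t,s,Z) ≤ CH (t₁, r) (V,t,s,Z) -
CH (t₁, r) (V,t,s,tr,ta,Z) ≤ 0` by `ut, ur, ut', ur'`; (7) `CH c₂ ≥ CH c - CH c (c₂, s, tr, ta)`;
(8) `CH (tr + c₂) ≥ CH tr (..) - CH tr (tr + c₂, s, ta, c)`, `utr`; (9) as (4). -/
def XTUStmt : Prop := TIAStmt → VECStmt → XSZStmt →
  ∃ C : ℝ, ∀ (d J : ℕ) (K : KC d J) (L sb e G : ℝ), K.Ok L sb e → K.En G →
    lg J - e - C * (1 + G) ≤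
      CH K.q K.c (fun w => (K.r w, K.V w, K.t w, K.s w, K.tr w, K.ta w, K.Z w)) ∧
    (∀ (β : Type) (W : K.Ω → β), CH K.q K.c W ≤ lg J + C * (1 + G) ∧
      CH K.q (fun w => K.s w + K.c w) W ≤ lg J + C * (1 + G) ∧
      CH K.q K.c₂ W ≤ lg J + C * (1 + G) ∧
      CH K.q (fun w => K.tr w + K.c₂ w) W ≤ lg J + C * (1 + G)) ∧
    (K.ec ≤ e + C * (1 + G) ∧ 0 ≤ K.ec + C * (1 + G)) ∧
    lg J - 2 * e + K.ec - C * (1 + G) ≤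
      CH K.q K.r (fun w => (K.c w, K.V w, K.t w, K.s w, K.Z w)) ∧
    lg J - e - C * (1 + G) ≤ CH K.q (fun w => K.s w + K.c w)
      (fun w => (K.t₁ w, K.r w, K.t w, (K.v₀ w, K.v₁ w), K.Z w)) ∧
    lg J - K.ec - C * (1 + G) ≤
      CH K.q K.c (fun w => (K.V w, K.t w, K.s w, K.tr w, K.ta w, K.Z w)) ∧
    lg J - K.ec - C * (1 + G) ≤
      CH K.q K.c₂ (fun w => (K.V w, K.t w, K.s w, K.ta w, K.tr w, K.Z w)) ∧
    lg J - e - C * (1 + G) ≤ CH K.q (fun w => K.tr w + K.c₂ w)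
      (fun w => (K.c w, K.s w, K.ta w, K.t w, K.V w, K.Z w)) ∧
    lg J - e - K.ec - C * (1 + G) ≤
      CH K.q K.ta (fun w => (K.c₂ w, K.V w, K.t w, K.s w, K.tr w, K.Z w))

/-- (XPT) The points seen from base lines (floors and the crossings). -/
def XPTStmt : Prop := ∀ (d J : ℕ) (K : KC d J) (L sb e : ℝ), K.Ok L sb e →
  Pt (2 ^ J) K.q K.Z K.v₀ K.u₀ K.v₁ K.s K.c K.X ∧
  Pt (2 ^ J) K.q K.Z K.v₂ K.u₂ K.v₁ K.s K.c K.X ∧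
  Pt (2 ^ J) K.q K.Z K.v₂ K.u₂ K.v₁ K.tr K.c₂ (fun w => (K.Y w).2) ∧
  Pt (2 ^ J) K.q K.Z K.v₁ K.u₁ K.v₀ K.t (fun w => K.t₁ w - K.t w) (fun w => (K.A w).2) ∧
  Pt (2 ^ J) K.q K.Z K.v₁ K.u₁ K.v₀ K.t (fun w => K.s w - K.t w) (fun w => (K.C w).2) ∧
  Pt (2 ^ J) K.q K.Z K.v₀ K.u₀ K.v₁ K.t (fun w => K.r w - K.t w) (fun w => (K.B w).2) ∧
  Pt (2 ^ J) K.q K.Z K.v₀ K.u₀ K.v₁ K.t (fun w => - K.t w) (fun w => rd (K.u₁ w))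

/-- (XF3) `H(t|v₀,v₁) ≤ y01` (PT3 for the last point of XPT: `s + c = 0`, and `rd u₁` is a function
of `v₁, Z`), `H(s|O,v₁,v₂) ≤ y12`. -/
def XF3Stmt : Prop := PT3Stmt → XPTStmt → ∀ d : ℕ,
  Sm d (fun _ K _ _ _ => CH K.q K.t (fun w => ((K.v₀ w, K.v₁ w), K.Z w)) - K.y01) ∧
  Sm d (fun _ K _ _ _ => CH K.q K.s (fun w => (K.O w, (K.v₁ w, K.v₂ w), K.Z w)) - K.y12)

/-- (XF4) `g, g2 ≥ 0` (PT4) and `g, g2 ≤ e + ec` (`CH O (v₀,v₁,Z) ≥ CH (s,c) (v₀,v₁,t,Z) - CH s (O,v₀,v₁,Z)`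
by PT3; `CH Y (v₁,v₂,Z) ≥ CH (tr,c₂) (V,t,s,ta,Z) - CH tr (Y,v₁,v₂,Z)`). -/
def XF4Stmt : Prop := PT3Stmt → PT4Stmt → XPTStmt → XSZStmt → XTUStmt → TIAStmt → VECStmt →
  ∀ d : ℕ,
  Sm d (fun _ K _ _ _ => - K.g) ∧ Sm d (fun _ K _ _ _ => - K.g2) ∧
  Sm d (fun _ K _ _ e => K.g - e - K.ec) ∧ Sm d (fun _ K _ _ e => K.g2 - e - K.ec)

/-- (XF5) `H(v₁|O,C) = 0`, `H(v₁|Y,C₂) = 0` (PT5). -/
def XF5Stmt : Prop := PT5Stmt → XPTStmt → XSZStmt → ∀ d : ℕ,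
  Sm d (fun _ K _ _ _ => CH K.q K.v₁ (fun w => (K.O w, K.C w, K.Z w))) ∧
  Sm d (fun _ K _ _ _ => CH K.q K.v₁ (fun w => (K.Y w, K.C₂ w, K.Z w)))

/-- (XF6) `H(O|A,B) ≤ log M`, `H(Y|A₂,O) ≤ log M` (CHO and XTU (2)). -/
def XF6Stmt : Prop := CHOStmt → VECStmt → XPTStmt → XSZStmt → XTUStmt → TIAStmt → ∀ d : ℕ,
  Sm d (fun J K _ _ _ => CH K.q K.O (fun w => (K.A w, K.B w, K.Z w)) - lg J) ∧
  Sm d (fun J K _ _ _ => CH K.q K.Y (fun w => (K.A₂ w, K.O w, K.Z w)) - lg J)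

/-- (XF7) `eta + y12 ≤ log M` (PT7 for `Y`; `log (J + 2) ≤ ε J + C`). -/
def XF7Stmt : Prop := PT7Stmt → VECStmt → XPTStmt → XSZStmt → ∀ d : ℕ,
  Sm d (fun J K _ _ _ => K.et + K.y12 - lg J)

/-- (XF8) `H(t₁, r | v₀, v₁, O) ≥ log M - 3 e + y01 + g`: `CH (t₁, r, O) (v₀,v₁,Z) ≥ CH (t₁, r)
(v₀,v₁,t,Z) + CH (s + c) (t₁,r,t,v₀,v₁,Z) ≥ 2 (lg - e) + lg - e`, minus `CH O (v₀,v₁,Z) =
2 lg - y01 - g`. -/
def XF8Stmt : Prop := XTUStmt → XSZStmt → TIAStmt → VECStmt → ∀ d : ℕ,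
  Sm d (fun J K _ _ e => lg J - 3 * e + K.y01 + K.g -
    CH K.q (fun w => (K.t₁ w, K.r w)) (fun w => ((K.v₀ w, K.v₁ w), K.O w, K.Z w)))

/-- (XF9) `H(s, c, ta | v₁, v₂, Y) ≥ q + log M - ec - 2 e + y12 + g2`:
`CH (s,c,ta,Y) (v₁,v₂,Z) ≥ q + CH c (V,t,s,Z) + CH ta (all) + CH (tr + c₂) (c,s,ta,..)
≥ q + (lg - ec) + (lg - e) + (lg - e)`, minus `CH Y (v₁,v₂,Z) = 2 lg - y12 - g2`. -/
def XF9Stmt : Prop := XTUStmt → XSZStmt → TIAStmt → VECStmt → ∀ d : ℕ,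
  Sm d (fun J K _ _ e => K.qh + lg J - K.ec - 2 * e + K.y12 + K.g2 -
    CH K.q (fun w => ((K.s w, K.c w), K.ta w)) (fun w => ((K.v₁ w, K.v₂ w), K.Y w, K.Z w)))

/-- (KPX) `KP 1` with explicit coefficient, from (HC) and (CAP) (`d = 1`; write `g` as a vector
`Fin 1 → ℤ`). Random scalar lines `(u, g)` (`u` need not be a function of `g, Z`), `B := (Z, τ, x)`,
`x` the rounded position. (HC) gives `w ≤ N` and the cap `D`; `Z⁺ := (D, w, Z)`. Pair of lines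
through the same point: law `dbl p (Z⁺, τ, x)`, lines `l = (u, g)`, `l'`:
`CH (l, l', τ) Z⁺ = 2 CH (l, τ) Z⁺ - CH (τ, x) Z⁺` and `≤ 2 CH l Z⁺ + CH τ (l, l')`,
`CH τ (l, l') ≤ Ex lvv g g' + 5` (`|τ - τ'| ≤ 2 M / max |g - g'| 1`), `CH τ (l, Z⁺) ≥ J log 2 - K -
log (N+1)` with `K := J log 2 - CH τ (l, Z)` (`D` is a function of `l, w`). So
`CH (τ,x) Z⁺ ≥ 2 (J log 2 - K) - (Ex w / N) J log 2 - (1/N + ε) J - C`. Then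
`CH (τ,x) Z ≥ CH D (w,Z) + CH (τ,x) Z⁺ - ε J` (as in RED, but for the pair `(τ, x)`: no deficit) and
`CH g Z ≤ CH D (w,Z) + (1 - Ex w / N) J log 2 + C` (CAP). -/
def KPXStmt : Prop := HCStmt → CAPStmt → ∀ ε : ℝ, 0 < ε → ∃ C : ℝ, ∀ (J : ℕ) (Ω : Type)
    [Fintype Ω] (ζ : Type) (p : Ω → ℝ) (Z : Ω → ζ) (u : Ω → ℝ) (g : Ω → ℤ) (τ : Ω → ℤ),
    (∀ ω, 0 ≤ p ω) → ∑ ω, p ω = 1 → (∀ ω, 0 < p ω → |g ω| ≤ 2 ^ J) →
    (∀ ω, 0 < p ω → 0 ≤ τ ω ∧ τ ω < 2 ^ J) →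
    CH p g Z + lg J ≤ CH p (fun ω => (τ ω, ⌊u ω + (τ ω : ℝ) / 2 ^ J * g ω⌋)) Z +
      2 * (lg J - CH p τ (fun ω => ((u ω, g ω), Z ω))) + C + ε * J

/-- (KKX) Facts K and K' with explicit coefficient: proof of (KK) of `H24/KTH/Geo` with (KPX) instead
of `KP 1`. `e₁ := lg J - CH (s + c) (s, v, w, Z)`, `T = s + c`, `Z' = (Z, w, i, b, E, h)`,
`K' := lg J - CH T' (l, Z') ≤ e₁ + CH h _ ≤ e₁ + C (1 + G)` (`l` the scalar line; it is a function of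
`v, w, s, h`): (KPX) gives `CH (T,X) Z' ≥ CH v Z' + lg J - 2 K' - err`; and
`CH (T,X) (v,s,Z') ≤ CH T (v,s,Z') + C`, where one may use the conclusion in the form
`CH (v,s) ((T,X), Z') = CH s (v,Z') + CH v Z' + CH (T,X) (v,s,Z') - CH (T,X) Z'
≤ CH s (v,Z') + CH T (v,s,Z') - lg J + 2 K' + err` with `K' ≤ lg J - CH T (v,s,Z')` up to
`C (1 + G)`, so the total is `≤ CH s (v,Z') + K' + err`. (KPX with the halved direction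
`⌊g / 2⌋`, as `|v - w| ≤ 2 M`.) -/
def KKXStmt : Prop := KPXStmt → HCStmt → CAPStmt → VECStmt → ∀ (d : ℕ) (ε : ℝ), 0 < ε → ∃ C : ℝ,
    ∀ (J : ℕ) (Ω : Type) [Fintype Ω] (ζ : Type) (q : Ω → ℝ) (Z : Ω → ζ)
    (w : Ω → Fin d → ℤ) (uw : Ω → Fin d → ℝ) (v : Ω → Fin d → ℤ) (s c : Ω → ℤ)
    (X : Ω → Fin d → ℤ), Pt (2 ^ J) q Z w uw v s c X →
    CH q (fun ω => (v ω, s ω)) (fun ω => ((s ω + c ω, X ω), w ω, Z ω)) ≤
      CH q s (fun ω => (v ω, w ω, Z ω)) +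
      (lg J - CH q (fun ω => s ω + c ω) (fun ω => (s ω, v ω, w ω, Z ω))) +
      C * (Ex q (fun ω => sz (2 ^ J) (c ω)) + 1) + ε * J

/-- (XFK) `H(v₀|v₁,A) ≤ e`, `H(v₀|v₁,C) ≤ e`: KKX for the base line 1, direction `v₀`, time `t`,
`e₁ ≤ e` by `ut`, `us`; `CH (v₀,t) (A,v₁,Z) = CH v₀ (A,v₁,Z) + CH t (v₀,A,v₁,Z)` and
`CH t (v₀,A,v₁,Z) = CH t (v₀,v₁,t₁,Z) = CH t (v₀,v₁,Z)` (`I(t; t₁ | v₀,v₁,Z) = CH t₁ (v₀,v₁,Z) -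
CH t₁ (t,v₀,v₁,Z) ≤ 0` by `ut'`, `ut`); the same for `s`. -/
def XFKStmt : Prop := KKXStmt → KPXStmt → HCStmt → CAPStmt → VECStmt → XPTStmt → XSZStmt → ∀ d : ℕ,
  Sm d (fun _ K _ _ e => CH K.q K.v₀ (fun w => (K.v₁ w, K.A w, K.Z w)) - e) ∧
  Sm d (fun _ K _ _ e => CH K.q K.v₀ (fun w => (K.v₁ w, K.C w, K.Z w)) - e)

/-- (XFP) Fact K': `H(v₁|O,v₂) ≤ q - H(s|v₁,v₂,O) + ec`: KKX for the base line 2, point `O`;
`e₁ = lg J - CH (s + c) (s,v₁,v₂,Z) ≤ ec`. -/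
def XFPStmt : Prop := KKXStmt → KPXStmt → HCStmt → CAPStmt → VECStmt → XPTStmt → XSZStmt → ∀ d : ℕ,
  Sm d (fun _ K _ _ _ => CH K.q K.v₁ (fun w => (K.O w, K.v₂ w, K.Z w)) - K.qh +
    CH K.q K.s (fun w => (K.O w, (K.v₁ w, K.v₂ w), K.Z w)) - K.ec)

/-- (XA1) `H(C, O) ≥ 2L + 4 log M - 4e - ec - sb - y01` (for KTH). -/
def XA1Stmt : Prop := ∀ d : ℕ,
  Sm d (fun J K L sb e => 2 * L + 4 * lg J - 4 * e - K.ec - sb - K.y01 -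
    CH K.q (fun w => (K.C w, K.O w)) K.Z)

/-- (XLL) `L_L = CH v₁ (O,Z) = CH (v₀,v₁) Z + CH O (v₀,v₁,Z) - xh - et1`, `CH (v₀,v₁) Z ≥
2L + 2lg - 2e - sb - y01` (`c01`, XF3). -/
def XLLStmt : Prop := ∀ d : ℕ,
  Sm d (fun J K L sb e => 2 * L + 4 * lg J - 2 * e - sb - 2 * K.y01 - K.g - K.xh - K.et1 - K.LL)

/-- (XLS) `sL - lg ≤ mh - xh - et1 - y01 - g - KL + 4e`: `CH (A,B,O) Z ≤ mh + lg` (XF6);
`CH A (B,O,Z) ≥ CH A (v₁,r,O,Z) ≥ CH (v₀,t₁) (v₁,r,O,Z) - CH v₀ (v₁,A,Z)`, and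
`CH (v₀,t₁) (v₁,r,O,Z) = et1 + CH (t₁,r) (v₀,v₁,O,Z) - CH r (v₁,O,Z)`, `CH r (v₁,O,Z) = lg - KL`,
(XF8), (XFK). -/
def XLSStmt : Prop := ∀ d : ℕ,
  Sm d (fun J K _ _ e => K.sL - lg J - (K.mh - K.xh - K.et1 - K.y01 - K.g - K.KL + 4 * e))

/-- (XKK) `KL ≤ 2e - ec`, `KI ≤ e + ec` (XTU (4), (9)). -/
def XKKStmt : Prop := ∀ d : ℕ,
  Sm d (fun _ K _ _ e => K.KL - (2 * e - K.ec)) ∧ Sm d (fun _ K _ _ e => K.KI - (e + K.ec))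

/-- (XIL) `L_I ≥ 3L + 6lg - 5e - 2sb - q - y01 - y12 - g2 - yh - et`: `c012`,
`CH (v₀,t,s) (v₁,v₂,Z) ≤ q + CH v₀ (v₁,C,Z) + CH t (v₀,v₁,Z)` (`C` is a function of `v₂, s, Z` by
`cross02`), (XFK), (XF3). -/
def XILStmt : Prop := ∀ d : ℕ,
  Sm d (fun J K L sb e => 3 * L + 6 * lg J - 5 * e - 2 * sb - K.qh - K.y01 - K.y12 - K.g2 - K.yh -
    K.et - K.LI)

/-- (XIS) `sI - lg ≤ sb + xh - yh - xi` (XF6, `sA2`). -/
def XISStmt : Prop := ∀ d : ℕ,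
  Sm d (fun J K _ sb _ => K.sI - lg J - (sb + K.xh - K.yh - K.xi))

/-- (XXI) `xi ≥ q + KI + g2 - 2e - ec` and `xi ≥ et + y12 + KI + g2 - 2e - 2ec`:
`xi ≥ CH O (ta,v₂,Y,Z) ≥ CH (v₁,O) (ta,v₂,Y,Z) - T`, `T := CH v₁ (O,A₂,Y,v₂,Z)`;
`CH (v₁,O) (ta,v₂,Y,Z) = et + CH (O,ta) (v₁,v₂,Y,Z) - (lg - KI)`; `CH (O,ta) (v₁,v₂,Y,Z) ≥
CH ((s,c),ta) (v₁,v₂,Y,Z) - W`, `W := CH s (O,ta,v₁,v₂,Y,Z)` (`(s, O)` gives `c`), (XF9);
`T ≤ et` and `W ≤ y12` (XF3); `T ≤ q - W + ec` (XFP; `W ≤ CH s (O,v₁,v₂,Z)`). -/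
def XXIStmt : Prop := ∀ d : ℕ,
  Sm d (fun _ K _ _ e => K.qh + K.KI + K.g2 - 2 * e - K.ec - K.xi) ∧
  Sm d (fun _ K _ _ e => K.et + K.y12 + K.KI + K.g2 - 2 * e - 2 * K.ec - K.xi)

/-- (XAY) `yh ≥ mh + L + 2lg - e - ec - 2sb - rh`: `CH (Y,C₂) Z ≥ CH (v₁,c₂,C₂) Z` (XF5; `c₂` is the
difference of the times), `CH c₂ (v₁,C₂,Z) ≥ lg - ec` (XTU (7)), `CH (v₁,C₂) Z = CH (P,C₂,v₁) Z - rh`
(`P` is a function of `t, v₁, Z`), `c1`, `sym`, `sC2`. -/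
def XAYStmt : Prop := ∀ d : ℕ,
  Sm d (fun J K L sb e => K.mh + L + 2 * lg J - e - K.ec - 2 * sb - K.rh - K.yh)

/-- (XBD) Trivial bounds. -/
def XBDStmt : Prop := ∀ (d J : ℕ) (K : KC d J) (L sb e : ℝ), K.Ok L sb e →
  K.qh ≤ lg J ∧ K.rh ≤ lg J ∧ K.mh ≤ 2 * sb ∧ 0 ≤ K.et1 ∧ 0 ≤ K.qh ∧ 0 ≤ K.et ∧ 0 ≤ K.xi ∧ 0 ≤ K.KL ∧
  0 ≤ K.KI

/-- (XSU) THE SUM. Arithmetic from XLL, XLS, XKK, XIL, XIS, XXI, XAY, XBD, XF4 (`g, g2 ≥ 0`), XF7,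
XTU (3): with `cL := a (sL - lg) + Λ KL - LL`, `cI := a (sI - lg) + Λ KI - LI`, weights
`a, a - 1, (a - 1) ^ 2`, in XXI the weights `1` and `a - 1`; the coefficient of `ec` is
`(Λ - a) - a (a - 1) - 2 (a - 1) ^ 2 ≥ 0`, that of `e` is `7 a ^ 2 + 3 a - 4 + (3 a - 1) (Λ - a)`,
at most the one below. -/
def XSUStmt : Prop := ∀ (d : ℕ) (a Λ : ℝ), 1 ≤ a → a ≤ 2 → a + 4 ≤ Λ →
  Sm d (fun J K L sb e => (a ^ 2 + 3 * a - 2) * (L + 2 * lg J) -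
    ((3 * a ^ 2 + 2 * a - 2) * sb + (a - 1) * lg J + (3 * a - a ^ 2 - 1) * K.y01 +
      (7 * a ^ 2 + 4 * a - 5 + (3 * a - 1) * (Λ - a)) * e -
      a * (a * (K.sL - lg J) + Λ * K.KL - K.LL) -
      (a - 1) * (a * (K.sI - lg J) + Λ * K.KI - K.LI)))

/-- (XST) The step: from XMR, XEN, XSU and `AKS` for the families `(v₁; O, Z; r)` and
`(v₂; Y, Z; ta)` (`CH B (O,Z) = Sb` of the family by SBP). -/
def XSTStmt : Prop := XMRStmt → (∃ C : ℝ, ∀ (d J : ℕ) (Ω : Type) [Fintype Ω] (ζ : Type)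
    (p : Ω → ℝ) (Z : Ω → ζ) (v : Ω → Fin d → ℤ) (u : Ω → Fin d → ℝ) (τ : Ω → ℤ),
    IsFam (2 ^ J) p Z v u τ →
    (KC.of J p Z v u τ).En (C * (1 + Gf (2 ^ J) p (bv Z v) τ))) → XSUStmt → Pool.LQ.SBPStmt →
  Pool.LQ.STPStmt

end Pool.KTX
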